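import Pool.Agent.N418.CZ.Stm

/-!
Project CZ, part TSB: `conD` is a left inverse of `mulD`.
-/

set_option autoImplicit false

namespace Pool.Agent.N654.CZTSB

open Module Pool.Agent.N418.CZ

theorem sum_prod {k : ℕ} {ι : Type} [Fintype ι] [DecidableEq ι] (F : ι → Fin k → Fin k → ℝ) :
    ∑ a : ι → Fin k, ∑ b : ι → Fin k, ∏ s, F s (a s) (b s) = ∏ s, ∑ α, ∑ β, F s α β := by
  rw [Finset.prod_univ_sum, Fintype.piFinset_univ]
  refine Finset.sum_congr rfl fun a _ => ?_
  rw [Finset.prod_univ_sum, Fintype.piFinset_univ]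

theorem expand {k : ℕ} {ι : Type} [Fintype ι] [DecidableEq ι] (D : (ι → Mk k) → ℝ)
    (hD : D ∈ T k ι) : ∀ x : ι → Mk k,
      D x = ∑ a : ι → Fin k, ∑ b : ι → Fin k, (∏ s, x s (a s) (b s)) * D (EE a b) := by
  unfold T at hD
  induction hD using Submodule.span_induction with
  | mem D h =>
    obtain ⟨σ, rfl⟩ := h
    intro x
    unfold tr
    have h1 : ∀ a b : ι → Fin k, (∏ s, x s (a s) (b s)) *
        (∑ i : ι → Fin k, ∏ s, EE a b s (i s) (i (σ s))) =
        ∑ i : ι → Fin k, ∏ s, (x s (a s) (b s) *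
          (Matrix.single (a s) (b s) (1 : ℝ) : Mk k) (i s) (i (σ s))) := by
      intro a b
      rw [Finset.mul_sum]
      refine Finset.sum_congr rfl fun i _ => ?_
      rw [Finset.prod_mul_distrib]
      rfl
    simp only [h1]
    have h2 : ∀ a : ι → Fin k, ∑ b : ι → Fin k, ∑ i : ι → Fin k, ∏ s, (x s (a s) (b s) *
          (Matrix.single (a s) (b s) (1 : ℝ) : Mk k) (i s) (i (σ s))) =
        ∑ i : ι → Fin k, ∑ b : ι → Fin k, ∏ s, (x s (a s) (b s) *
          (Matrix.single (a s) (b s) (1 : ℝ) : Mk k) (i s) (i (σ s))) := fun a =>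
      Finset.sum_comm
    simp only [h2]
    rw [Finset.sum_comm]
    refine Finset.sum_congr rfl fun i _ => ?_
    rw [sum_prod (fun s α β => x s α β * (Matrix.single α β (1 : ℝ) : Mk k) (i s) (i (σ s)))]
    refine Finset.prod_congr rfl fun s _ => ?_
    rw [Finset.sum_eq_single (i s), Finset.sum_eq_single (i (σ s))]
    · simp
    · intro β _ hβ
      rw [Matrix.single_apply, if_neg (fun h => hβ h.2), mul_zero]
    · simp
    · intro α _ hα
      refine Finset.sum_eq_zero fun β _ => ?_
      rw [Matrix.single_apply, if_neg (fun h => hα h.1), mul_zero]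
    · simp
  | zero => intro x; simp
  | add f g _ _ hf hg =>
    intro x
    simp only [Pi.add_apply, mul_add, Finset.sum_add_distrib]
    rw [hf x, hg x]
  | smul c f _ hf =>
    intro x
    simp only [Pi.smul_apply, smul_eq_mul]
    rw [hf x, Finset.mul_sum]
    refine Finset.sum_congr rfl fun a _ => ?_
    rw [Finset.mul_sum]
    refine Finset.sum_congr rfl fun b _ => ?_
    ring

theorem cne {k m : ℕ} (D : (Fin m → Mk k) → ℝ) (hD : D ∈ T k (Fin m)) (h0 : D ≠ 0) :
    (∑ a : Fin m → Fin k, ∑ b : Fin m → Fin k, D (EE a b) ^ 2) ≠ 0 := by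
  intro h
  apply h0
  have h1 : ∀ a b : Fin m → Fin k, D (EE a b) = 0 := by
    intro a b
    have h2 := (Finset.sum_eq_zero_iff_of_nonneg (fun a _ =>
      Finset.sum_nonneg fun b _ => sq_nonneg _)).1 h a (Finset.mem_univ _)
    have h3 := (Finset.sum_eq_zero_iff_of_nonneg (fun b _ => sq_nonneg _)).1 h2 b
      (Finset.mem_univ _)
    exact pow_eq_zero_iff (two_ne_zero) |>.1 h3
  funext x
  rw [expand D hD x]
  simp [h1]

theorem ts_indep {k m N : ℕ} (e : Fin m → Fin N) (S : Finset (Fin N)) (he : ∀ s, e s ∉ S)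
    (φ : (Fin N → Mk k) → ℝ) (hφ : φ ∈ TS k N S) (g : Fin m → Mk k) (x : Fin N → Mk k) :
    φ (Function.extend e g x) = φ x := by
  obtain ⟨ψ, -, rfl⟩ := Submodule.mem_map.1 hφ
  simp only [LinearMap.funLeft_apply]
  congr 1
  funext s
  refine Function.extend_apply' _ _ _ ?_
  rintro ⟨a, ha⟩
  exact he a (ha ▸ s.2)

theorem t_TSB : S_TSB := by
  intro k m N D hD hD0
  have hc := cne D hD hD0
  refine ⟨fun e S he hS φ hφ => ?_, fun e e' he he' hee φ => ?_, fun e e' φ => ?_⟩
  · funext x
    show (∑ a : Fin m → Fin k, ∑ b : Fin m → Fin k, D (EE a b) ^ 2)⁻¹ *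
      ∑ a : Fin m → Fin k, ∑ b : Fin m → Fin k, D (EE a b) *
        (D (fun s => (Function.extend e (EE a b) x) (e s)) * φ (Function.extend e (EE a b) x)) = φ x
    have h1 : ∀ a b : Fin m → Fin k, D (EE a b) *
        (D (fun s => (Function.extend e (EE a b) x) (e s)) * φ (Function.extend e (EE a b) x)) =
        D (EE a b) ^ 2 * φ x := by
      intro a b
      rw [ts_indep e S hS φ hφ]
      have : (fun s => (Function.extend e (EE a b) x) (e s)) = EE a b := by
        funext s
        exact he.extend_apply _ _ _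
      rw [this]; ring
    simp only [h1, ← Finset.sum_mul]
    rw [← mul_assoc, inv_mul_cancel₀ hc, one_mul]
  · funext x
    show (∑ a : Fin m → Fin k, ∑ b : Fin m → Fin k, D (EE a b) ^ 2)⁻¹ *
      ∑ a : Fin m → Fin k, ∑ b : Fin m → Fin k, D (EE a b) *
        (D (fun s => (Function.extend e (EE a b) x) (e' s)) * φ (Function.extend e (EE a b) x)) =
      D (fun s => x (e' s)) * ((∑ a : Fin m → Fin k, ∑ b : Fin m → Fin k, D (EE a b) ^ 2)⁻¹ *
      ∑ a : Fin m → Fin k, ∑ b : Fin m → Fin k, D (EE a b) * φ (Function.extend e (EE a b) x))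
    have h1 : ∀ a b : Fin m → Fin k, D (EE a b) *
        (D (fun s => (Function.extend e (EE a b) x) (e' s)) * φ (Function.extend e (EE a b) x)) =
        D (fun s => x (e' s)) * (D (EE a b) * φ (Function.extend e (EE a b) x)) := by
      intro a b
      have : (fun s => (Function.extend e (EE a b) x) (e' s)) = fun s => x (e' s) := by
        funext s
        refine Function.extend_apply' _ _ _ ?_
        rintro ⟨a, ha⟩
        exact hee a s ha
      rw [this]; ring
    simp only [h1, ← Finset.mul_sum]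
    ring
  · funext x
    show D (fun s => x (e s)) * (D (fun s => x (e' s)) * φ x) =
      D (fun s => x (e' s)) * (D (fun s => x (e s)) * φ x)
    ring

end Pool.Agent.N654.CZTSB
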